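import Pool.Agent.N20.EW.Stm4
import Pool.Agent.N323.DILIN

/-!
# EK/LINA: characters over a central subgroup which meets the commutator subgroup trivially

As DI/LIN (helper323), without the condition on the defects.
-/

set_option autoImplicit false

open scoped Classical

noncomputable section

namespace Pool.Agent.N273.EK

open Pool.Agent.Y63.NV
open Pool.Agent.Y930.NV
open Pool.Agent.Y63.AWC (IsIrreducibleCharacter)
open Pool.Agent.N20.EW (Kn S_LINA)
open Pool.Agent.N323.DI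

/-- LINA -/
theorem LINA : S_LINA := by
  intro p F _ red J K _ _ _ _ π hπ hker G hG hcomm m hp hm z hz hzG c
  choose L hLG hLR using ext_char G hcomm π.ker hG
  unfold Kn
  rw [← hm, ← card_lin π.ker hker, ← Nat.card_prod]
  symm
  have hmem : ∀ (μ : π.ker →* ℂˣ) (χ' : K → ℂ), IsIrreducibleCharacter χ' →
      centralValue red χ' (fun y : K => ∑ᶠ x : J, if π x = y then z x else 0) = c →
      IsIrreducibleCharacter (fun x : J => ((L μ x : ℂˣ) : ℂ) * χ' (π x)) ∧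
      centralValue red (fun x : J => ((L μ x : ℂˣ) : ℂ) * χ' (π x)) z = c := by
    intro μ χ' h1 h3
    refine ⟨irr_twist (irr_inflate π hπ h1) (L μ), ?_⟩
    rw [cv_twist red G z hzG (L μ) (hLG μ) (fun x => χ' (π x)), inf F red J K π χ' z hπ h1 hz]
    exact h3
  refine Nat.card_congr (Equiv.ofBijective
    (fun t : (π.ker →* ℂˣ) × {χ' : K → ℂ // IsIrreducibleCharacter χ' ∧
      centralValue red χ' (fun y : K => ∑ᶠ x : J, if π x = y then z x else 0) = c} =>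
      (⟨fun x : J => ((L t.1 x : ℂˣ) : ℂ) * t.2.1 (π x),
        hmem t.1 t.2.1 t.2.2.1 t.2.2.2⟩ :
        {χ : J → ℂ // IsIrreducibleCharacter χ ∧ centralValue red χ z = c})) ⟨?_, ?_⟩)
  · rintro ⟨μ, χ, hχ⟩ ⟨ν, ψ, hψ⟩ heq
    have h0 := congrArg Subtype.val heq
    have h1 : ∀ x : J, ((L μ x : ℂˣ) : ℂ) * χ (π x) = ((L ν x : ℂˣ) : ℂ) * ψ (π x) :=
      fun x => congrFun h0 x
    have h2 : χ 1 = ψ 1 := by
      have := h1 1
      rwa [map_one, map_one, map_one, Units.val_one, one_mul, one_mul] at this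
    have h3 : χ 1 ≠ 0 := by
      have : Fintype K := Fintype.ofFinite K
      exact irr_one_ne hχ.1
    have h4 : μ = ν := by
      ext r
      have h5 := h1 (r : J)
      have h6 : π (r : J) = 1 := r.2
      rw [h6, hLR, hLR, ← h2] at h5
      exact mul_right_cancel₀ h3 h5
    subst h4
    have h5 : χ = ψ := by
      funext y
      obtain ⟨x, rfl⟩ := hπ y
      exact mul_left_cancel₀ (Units.ne_zero _) (h1 x)
    subst h5
    rfl
  · rintro ⟨χ, hχ1, hχ3⟩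
    obtain ⟨μ, hμ⟩ := central_char hχ1 π.ker hker
    obtain ⟨ψ, hψ⟩ : ∃ ψ : J → ℂ, ψ = fun x => (((L μ)⁻¹ x : ℂˣ) : ℂ) * χ x := ⟨_, rfl⟩
    have hψirr : IsIrreducibleCharacter ψ := by
      rw [hψ]
      exact irr_twist hχ1 (L μ)⁻¹
    have hχψ : ∀ x, χ x = ((L μ x : ℂˣ) : ℂ) * ψ x := by
      intro x
      rw [hψ]
      show χ x = ((L μ x : ℂˣ) : ℂ) * (((L μ)⁻¹ x : ℂˣ) * χ x)
      rw [MonoidHom.inv_apply, ← mul_assoc, Units.mul_inv, one_mul]
    have hψinf : ∀ q ∈ π.ker, ∀ x : J, ψ (q * x) = ψ x := by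
      intro q hq x
      have h1 := hμ ⟨q, hq⟩ x
      have h2 := hLR μ ⟨q, hq⟩
      rw [hψ]
      show (((L μ)⁻¹ (q * x) : ℂˣ) : ℂ) * χ (q * x) = (((L μ)⁻¹ x : ℂˣ) : ℂ) * χ x
      have h1' : χ (q * x) = ((μ ⟨q, hq⟩ : ℂˣ) : ℂ) * χ x := h1
      have h2' : L μ q = μ ⟨q, hq⟩ := h2
      rw [h1', map_mul, MonoidHom.inv_apply, MonoidHom.inv_apply, h2', Units.val_mul]
      have h3 : (((μ ⟨q, hq⟩)⁻¹ : ℂˣ) : ℂ) * ((μ ⟨q, hq⟩ : ℂˣ) : ℂ) = 1 := Units.inv_mul _
      linear_combination (((L μ x)⁻¹ : ℂˣ) : ℂ) * χ x * h3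
    obtain ⟨χ', h1, h2⟩ := deflate' π hπ hψirr hψinf
    have hχχ' : χ = fun x : J => ((L μ x : ℂˣ) : ℂ) * χ' (π x) := by
      funext x
      rw [hχψ x, h2 x]
    have h5 : centralValue red χ' (fun y : K => ∑ᶠ x : J, if π x = y then z x else 0) = c := by
      rw [← hχ3, hχχ', cv_twist red G z hzG (L μ) (hLG μ) (fun x => χ' (π x)),
        inf F red J K π χ' z hπ h1 hz]
    exact ⟨⟨μ, ⟨χ', h1, h5⟩⟩, Subtype.ext hχχ'.symm⟩

end Pool.Agent.N273.EK
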