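import Mathlib
import Pool.Agent.N699.AO.Stm

set_option autoImplicit false

/-! Leaf WEY2 of project AO. -/

namespace Pool.Agent.N273.AO
open Finset Pool.Agent.N699.AO

lemma mm_le_L (L : ℕ) (x : ℝ) : mm L x ≤ L := by
  unfold mm
  split_ifs with h
  · exact le_rfl
  · push Not at h
    have h0 : 0 ≤ |x - round x| := abs_nonneg _
    have h1 : 0 < |x - round x| := by
      rcases h0.lt_or_eq with h2 | h2
      · exact h2
      · rw [← h2] at h; norm_num at h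
    rw [div_le_iff₀ (by positivity)]
    nlinarith

lemma mm_le_inv (L : ℕ) (x d : ℝ) (hd : 0 < d) (hx : ∀ n : ℤ, d ≤ |x - n|) :
    mm L x ≤ 1 / (2 * d) := by
  have h1 : d ≤ |x - round x| := hx (round x)
  have h2 : 0 < |x - round x| := lt_of_lt_of_le hd h1
  have h3 : 1 / (2 * |x - round x|) ≤ 1 / (2 * d) := by
    apply one_div_le_one_div_of_le <;> linarith
  refine le_trans ?_ h3
  unfold mm
  split_ifs with h
  · rw [le_div_iff₀ (by positivity)]; nlinarith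
  · exact le_rfl

/-- the bound for the residue `r` -/
noncomputable def ff (Q r : ℕ) : ℝ := (2 / 3) * Q * (1 / r + 1 / ((Q : ℝ) - r))

/-- the residue -/
def res (Q : ℕ) (c : ℤ) (u : ℕ) : ℕ := ((u * c) % (Q : ℤ)).toNat

lemma res_lt (Q : ℕ) (hQ : 1 ≤ Q) (c : ℤ) (u : ℕ) : res Q c u < Q := by
  unfold res
  have h1 : ((u * c) % (Q : ℤ)) < Q := Int.emod_lt_of_pos _ (by exact_mod_cast hQ)
  have h2 : 0 ≤ ((u * c) % (Q : ℤ)) := Int.emod_nonneg _ (by positivity)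
  omega

lemma res_cast (Q : ℕ) (hQ : 1 ≤ Q) (c : ℤ) (u : ℕ) : (res Q c u : ℤ) = (u * c) % (Q : ℤ) := by
  unfold res
  exact Int.toNat_of_nonneg (Int.emod_nonneg _ (by positivity))

lemma ff_nonneg (Q r : ℕ) (h : r < Q) : 0 ≤ ff Q r := by
  unfold ff
  have h1 : (r : ℝ) < Q := by exact_mod_cast h
  have h2 : 0 < (Q : ℝ) - r := by linarith
  positivity

lemma mm_le_ff (L Q : ℕ) (hL : 1 ≤ L) (hQ : 1 ≤ Q) (c : ℤ) (hc : IsCoprime c (Q : ℤ)) (β : ℝ)
    (hβ : |β| ≤ 1 / (Q * (8 * L))) (u : ℕ) (hu : u ≤ 2 * L) (hQu : ¬ Q ∣ u) :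
    mm L (u * (c / Q + β)) ≤ ff Q (res Q c u) := by
  have hQ' : (1 : ℝ) ≤ Q := by exact_mod_cast hQ
  have hL' : (1 : ℝ) ≤ L := by exact_mod_cast hL
  have hu' : (u : ℝ) ≤ 2 * L := by exact_mod_cast hu
  obtain ⟨r, hr⟩ : ∃ r, r = res Q c u := ⟨_, rfl⟩
  have hrlt : r < Q := by rw [hr]; exact res_lt Q hQ c u
  have hrc : (r : ℤ) = (u * c) % (Q : ℤ) := by rw [hr]; exact res_cast Q hQ c u
  have hr0 : 1 ≤ r := by
    by_contra h
    have h0 : r = 0 := by omega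
    rw [h0] at hrc
    have h1 : (Q : ℤ) ∣ u * c := Int.dvd_of_emod_eq_zero hrc.symm
    have h2 : (Q : ℤ) ∣ u := hc.symm.dvd_of_dvd_mul_right h1
    exact hQu (by exact_mod_cast h2)
  rw [← hr]
  have hr0' : (1 : ℝ) ≤ r := by exact_mod_cast hr0
  have hrlt' : (r : ℝ) + 1 ≤ Q := by exact_mod_cast hrlt
  -- division
  have hdiv : ((u : ℝ) * c) = Q * (((u * c) / (Q : ℤ) : ℤ) : ℝ) + r := by
    have h1 : (u * c : ℤ) = Q * ((u * c) / (Q : ℤ)) + r := by
      rw [hrc]; exact (Int.mul_ediv_add_emod _ _).symm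
    exact_mod_cast h1
  obtain ⟨q, hq⟩ : ∃ q : ℤ, q = (u * c) / (Q : ℤ) := ⟨_, rfl⟩
  rw [← hq] at hdiv
  have hub : |(u : ℝ) * β| ≤ 1 / (4 * Q) := by
    rw [abs_mul, abs_of_nonneg (by positivity : (0 : ℝ) ≤ u)]
    calc (u : ℝ) * |β| ≤ (2 * L) * (1 / (Q * (8 * L))) := by
          apply mul_le_mul hu' hβ (abs_nonneg _) (by positivity)
      _ = 1 / (4 * Q) := by field_simp; norm_num
  set d : ℝ := (3 / 4) * min (r : ℝ) (Q - r) / Q with hd
  have hmin : 1 ≤ min (r : ℝ) (Q - r) := le_min hr0' (by linarith)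
  have hd0 : 0 < d := by rw [hd]; positivity
  have key : ∀ n : ℤ, d ≤ |(u : ℝ) * (c / Q + β) - n| := by
    intro n
    have h1 : (u : ℝ) * (c / Q + β) - n = ((q - n : ℤ) : ℝ) + r / Q + u * β := by
      push_cast
      have : (u : ℝ) * (c / Q) = q + r / Q := by
        field_simp; linarith
      rw [mul_add, this]; ring
    rw [h1]
    have h2 : min (r : ℝ) (Q - r) / Q ≤ |((q - n : ℤ) : ℝ) + r / Q| := by
      rcases le_or_gt 0 (q - n) with h | h
      · have h' : (0 : ℝ) ≤ ((q - n : ℤ) : ℝ) := by exact_mod_cast h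
        calc min (r : ℝ) (Q - r) / Q ≤ r / Q := by gcongr; exact min_le_left _ _
          _ ≤ ((q - n : ℤ) : ℝ) + r / Q := by linarith
          _ ≤ _ := le_abs_self _
      · have h' : ((q - n : ℤ) : ℝ) ≤ -1 := by
          have : q - n ≤ -1 := by omega
          exact_mod_cast this
        calc min (r : ℝ) (Q - r) / Q ≤ (Q - r) / Q := by gcongr; exact min_le_right _ _
          _ = 1 - r / Q := by field_simp
          _ ≤ -(((q - n : ℤ) : ℝ) + r / Q) := by linarith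
          _ ≤ _ := neg_le_abs _
    have h3 : |(u : ℝ) * β| ≤ (1 / 4) * (min (r : ℝ) (Q - r) / Q) := by
      refine hub.trans ?_
      calc 1 / (4 * (Q : ℝ)) = (1 / 4) * (1 / Q) := by field_simp
        _ ≤ _ := by gcongr
    have h4 : |((q - n : ℤ) : ℝ) + r / Q| - |(u : ℝ) * β| ≤ |((q - n : ℤ) : ℝ) + r / Q + u * β| := by
      have := abs_sub_abs_le_abs_sub (((q - n : ℤ) : ℝ) + r / Q) (-((u : ℝ) * β))
      rw [abs_neg, sub_neg_eq_add] at this
      exact this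
    have h5 : d = (3 / 4) * (min (r : ℝ) (Q - r) / Q) := by rw [hd]; ring
    linarith
  refine (mm_le_inv L _ d hd0 key).trans ?_
  have h6 : 1 / (2 * d) = (2 / 3) * Q * (1 / min (r : ℝ) (Q - r)) := by
    rw [hd]; field_simp; norm_num
  rw [h6]
  unfold ff
  have h7 : 0 < (Q : ℝ) - r := by linarith
  gcongr
  rcases min_choice (r : ℝ) (Q - r) with h | h
  · rw [h]
    have : 0 ≤ 1 / ((Q : ℝ) - r) := by positivity
    linarith
  · rw [h]
    have : 0 ≤ 1 / (r : ℝ) := by positivity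
    linarith

lemma res_period (Q : ℕ) (c : ℤ) (K i : ℕ) : res Q c (Q * K + i) = res Q c i := by
  unfold res
  congr 1
  have : ((Q * K + i : ℕ) : ℤ) * c = (i : ℤ) * c + Q * (K * c) := by push_cast; ring
  rw [this, Int.add_mul_emod_self_left]

lemma sum_block (Q : ℕ) (hQ : 1 ≤ Q) (c : ℤ) (hc : IsCoprime c (Q : ℤ)) :
    ∑ i ∈ range Q, ff Q (res Q c i) = ∑ r ∈ range Q, ff Q r := by
  have hinj : Set.InjOn (fun i => res Q c i) (range Q : Finset ℕ) := by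
    intro i hi j hj hij
    simp only [coe_range, Set.mem_Iio] at hi hj
    simp only at hij
    have h1 : ((i : ℤ) * c) % (Q : ℤ) = (j * c) % (Q : ℤ) := by
      rw [← res_cast Q hQ c i, ← res_cast Q hQ c j, hij]
    have h2 : (Q : ℤ) ∣ (i - j) * c := by
      have := Int.emod_emod_of_dvd
      have h3 := Int.sub_emod ((i : ℤ) * c) (j * c) Q
      rw [h1, sub_self, Int.zero_emod] at h3
      have h4 : ((i : ℤ) - j) * c = i * c - j * c := by ring
      rw [h4]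
      exact Int.dvd_of_emod_eq_zero h3
    have h3 : (Q : ℤ) ∣ (i - j) := hc.symm.dvd_of_dvd_mul_right h2
    have h4 : ((i : ℤ) - j) = 0 := by
      apply Int.eq_zero_of_abs_lt_dvd h3
      rw [abs_lt]; constructor <;> omega
    omega
  have himg : (range Q).image (fun i => res Q c i) = range Q := by
    apply Finset.eq_of_subset_of_card_le
    · intro x hx
      rw [mem_image] at hx
      obtain ⟨i, _, rfl⟩ := hx
      exact mem_range.mpr (res_lt Q hQ c i)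
    · rw [Finset.card_image_of_injOn hinj]
  conv_rhs => rw [← himg]
  rw [Finset.sum_image hinj]

lemma sum_blocks (Q : ℕ) (hQ : 1 ≤ Q) (c : ℤ) (hc : IsCoprime c (Q : ℤ)) (K : ℕ) :
    ∑ u ∈ range (Q * K), ff Q (res Q c u) = K * ∑ r ∈ range Q, ff Q r := by
  induction K with
  | zero => simp
  | succ K ih =>
    rw [Nat.mul_succ, Finset.sum_range_add, ih]
    have : ∑ x ∈ range Q, ff Q (res Q c (Q * K + x)) = ∑ r ∈ range Q, ff Q r := by
      rw [← sum_block Q hQ c hc]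
      exact Finset.sum_congr rfl (fun i _ => by rw [res_period])
    rw [this]; push_cast; ring

lemma harm (Q : ℕ) : ∑ i ∈ range Q, (1 / ((i : ℝ) + 1)) ≤ 1 + Real.log Q := by
  have h := harmonic_le_one_add_log Q
  have h2 : ((harmonic Q : ℚ) : ℝ) = ∑ i ∈ range Q, (1 / ((i : ℝ) + 1)) := by
    unfold harmonic
    push_cast
    exact Finset.sum_congr rfl (fun i _ => by rw [one_div])
  rw [← h2]; exact h

lemma sum_ff (Q : ℕ) (hQ : 1 ≤ Q) : ∑ r ∈ range Q, ff Q r ≤ (4 / 3) * Q * (1 + Real.log Q) := by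
  unfold ff
  rw [← Finset.mul_sum, Finset.sum_add_distrib]
  have h1 : ∑ r ∈ range Q, (1 / (r : ℝ)) ≤ 1 + Real.log Q := by
    obtain ⟨q, rfl⟩ : ∃ q, Q = q + 1 := ⟨Q - 1, by omega⟩
    rw [Finset.sum_range_succ']
    simp only [Nat.cast_zero, div_zero, add_zero]
    refine le_trans ?_ (harm (q + 1))
    rw [Finset.sum_range_succ]
    have : (0 : ℝ) ≤ 1 / ((q : ℝ) + 1) := by positivity
    push_cast
    linarith
  have h2 : ∑ r ∈ range Q, (1 / ((Q : ℝ) - r)) ≤ 1 + Real.log Q := by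
    refine le_trans (le_of_eq ?_) (harm Q)
    rw [← Finset.sum_range_reflect (fun i => 1 / ((i : ℝ) + 1)) Q]
    apply Finset.sum_congr rfl
    intro i hi
    rw [mem_range] at hi
    have : ((Q - 1 - i : ℕ) : ℝ) = Q - 1 - i := by
      rw [Nat.cast_sub (by omega), Nat.cast_sub hQ]; simp
    rw [this]; congr 1; ring
  have hQ' : (0 : ℝ) ≤ Q := by positivity
  nlinarith

lemma part_i (L Q : ℕ) (hL : 1 ≤ L) (hQ : 1 ≤ Q) (hQL : Q ≤ 8 * L) (c : ℤ)
    (hc : IsCoprime c (Q : ℤ)) (β : ℝ) (hβ : |β| ≤ 1 / (Q * (8 * L))) :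
    ∑ u ∈ (Icc 1 (2 * L)).filter (fun u => ¬ Q ∣ u), mm L (u * (c / Q + β)) ≤
      54 * (L * (1 + Real.log L)) := by
  have hQ' : (1 : ℝ) ≤ Q := by exact_mod_cast hQ
  have hL' : (1 : ℝ) ≤ L := by exact_mod_cast hL
  have hQL' : (Q : ℝ) ≤ 8 * L := by exact_mod_cast hQL
  have h1 : ∑ u ∈ (Icc 1 (2 * L)).filter (fun u => ¬ Q ∣ u), mm L (u * (c / Q + β)) ≤
      ∑ u ∈ (Icc 1 (2 * L)).filter (fun u => ¬ Q ∣ u), ff Q (res Q c u) := by
    apply Finset.sum_le_sum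
    intro u hu
    rw [mem_filter, mem_Icc] at hu
    exact mm_le_ff L Q hL hQ c hc β hβ u hu.1.2 hu.2
  have h2 : ∑ u ∈ (Icc 1 (2 * L)).filter (fun u => ¬ Q ∣ u), ff Q (res Q c u) ≤
      ∑ u ∈ range (Q * (2 * L / Q + 1)), ff Q (res Q c u) := by
    apply Finset.sum_le_sum_of_subset_of_nonneg
    · intro u hu
      rw [mem_filter, mem_Icc] at hu
      rw [mem_range]
      have := Nat.lt_mul_div_succ (2 * L) (show 0 < Q by omega)
      omega
    · intro u _ _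
      exact ff_nonneg Q _ (res_lt Q hQ c u)
  rw [sum_blocks Q hQ c hc] at h2
  have h3 := sum_ff Q hQ
  have hlogQ : Real.log Q ≤ 3 + Real.log L := by
    have h4 : Real.log Q ≤ Real.log (8 * L) := Real.log_le_log (by linarith) hQL'
    rw [Real.log_mul (by norm_num) (by linarith)] at h4
    have h5 : Real.log 8 ≤ 3 := by
      have : (8 : ℝ) = 2 ^ 3 := by norm_num
      rw [this, Real.log_pow]
      have := Real.log_two_lt_d9
      push_cast; linarith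
    linarith
  have hlogL : 0 ≤ Real.log L := Real.log_nonneg hL'
  have hlogQ0 : 0 ≤ Real.log Q := Real.log_nonneg hQ'
  have hK : ((2 * L / Q + 1 : ℕ) : ℝ) ≤ 2 * L / Q + 1 := by
    push_cast
    have := @Nat.cast_div_le ℝ _ _ _ (2 * L) Q
    push_cast at this
    linarith
  have hS0 : 0 ≤ ∑ r ∈ range Q, ff Q r := Finset.sum_nonneg (fun r hr => ff_nonneg Q r (mem_range.mp hr))
  calc _ ≤ ((2 * L / Q + 1 : ℕ) : ℝ) * ∑ r ∈ range Q, ff Q r := h1.trans h2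
    _ ≤ (2 * L / Q + 1) * ((4 / 3) * Q * (1 + Real.log Q)) := by
        apply mul_le_mul hK h3 hS0 (by positivity)
    _ = (4 / 3) * (2 * L + Q) * (1 + Real.log Q) := by field_simp
    _ ≤ (4 / 3) * (10 * L) * (4 * (1 + Real.log L)) := by
        apply mul_le_mul _ _ (by positivity) (by positivity)
        · linarith
        · linarith
    _ ≤ 54 * (L * (1 + Real.log L)) := by
        have : 0 ≤ (L : ℝ) * (1 + Real.log L) := by positivity
        linarith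

lemma sum_rpow (J : ℕ) : ∑ j ∈ Icc 1 J, (j : ℝ) ^ (-(3 / 4) : ℝ) ≤ 4 * (J : ℝ) ^ (1 / 4 : ℝ) := by
  induction J with
  | zero => simp
  | succ J ih =>
    rw [Finset.sum_Icc_succ_top (by omega)]
    set a : ℝ := (J : ℝ) ^ (1 / 4 : ℝ) with ha
    set b : ℝ := ((J + 1 : ℕ) : ℝ) ^ (1 / 4 : ℝ) with hb
    have ha0 : 0 ≤ a := by positivity
    have hb0 : 0 < b := by positivity
    have hab : a ≤ b := by
      rw [ha, hb]; apply Real.rpow_le_rpow (by positivity) _ (by norm_num)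
      push_cast; linarith
    have ha4 : a ^ 4 = J := by
      rw [ha, ← Real.rpow_natCast, ← Real.rpow_mul (by positivity)]; norm_num
    have hb4 : b ^ 4 = J + 1 := by
      rw [hb, ← Real.rpow_natCast, ← Real.rpow_mul (by positivity)]; norm_num
    have hb3 : ((J + 1 : ℕ) : ℝ) ^ (-(3 / 4) : ℝ) = 1 / b ^ 3 := by
      rw [hb, ← Real.rpow_natCast, ← Real.rpow_mul (by positivity), one_div,
        ← Real.rpow_neg (by positivity)]
      norm_num
    rw [hb3]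
    have h1 : (b - a) * (4 * b ^ 3) ≥ 1 := by
      have h2 : (b - a) * (b ^ 3 + b ^ 2 * a + b * a ^ 2 + a ^ 3) = 1 := by
        have : (b - a) * (b ^ 3 + b ^ 2 * a + b * a ^ 2 + a ^ 3) = b ^ 4 - a ^ 4 := by ring
        rw [this, ha4, hb4]; ring
      have h3 : b ^ 3 + b ^ 2 * a + b * a ^ 2 + a ^ 3 ≤ 4 * b ^ 3 := by
        have e1 : b ^ 2 * a ≤ b ^ 2 * b := by gcongr
        have e2 : b * a ^ 2 ≤ b * b ^ 2 := by gcongr
        have e3 : a ^ 3 ≤ b ^ 3 := by gcongr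
        nlinarith
      have h4 : 0 ≤ b - a := by linarith
      nlinarith
    have h5 : 1 / b ^ 3 ≤ 4 * (b - a) := by
      rw [div_le_iff₀ (by positivity)]; nlinarith
    linarith

lemma part_ii_1 (L Q : ℕ) (hQ : 1 ≤ Q) (c : ℤ) (β : ℝ) :
    ∑ j ∈ Icc 1 (2 * L / Q), mm L ((Q * j : ℕ) * (c / Q + β)) ≤ 2 * ((L : ℝ) ^ 2 / Q) := by
  have hQ' : (1 : ℝ) ≤ Q := by exact_mod_cast hQ
  calc ∑ j ∈ Icc 1 (2 * L / Q), mm L ((Q * j : ℕ) * (c / Q + β)) ≤ ∑ j ∈ Icc 1 (2 * L / Q), (L : ℝ) := by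
        apply Finset.sum_le_sum; intro j _; exact mm_le_L L _
    _ = ((2 * L / Q : ℕ) : ℝ) * L := by simp
    _ ≤ (2 * L / Q) * L := by
        gcongr
        have := @Nat.cast_div_le ℝ _ _ _ (2 * L) Q
        push_cast at this
        exact this
    _ = _ := by ring

lemma part_ii_2 (L Q : ℕ) (hL : 1 ≤ L) (hQ : 1 ≤ Q) (c : ℤ) (β : ℝ) (hβ0 : β ≠ 0)
    (hβ : |β| ≤ 1 / (Q * (8 * L))) :
    ∑ j ∈ Icc 1 (2 * L / Q), mm L ((Q * j : ℕ) * (c / Q + β)) ≤
      4 * ((L : ℝ) ^ 2 / Q) * ((L : ℝ) ^ 2 * |β|) ^ (-(3 / 4) : ℝ) := by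
  have hQ' : (1 : ℝ) ≤ Q := by exact_mod_cast hQ
  have hL' : (1 : ℝ) ≤ L := by exact_mod_cast hL
  have hβp : 0 < |β| := abs_pos.mpr hβ0
  set v : ℝ := (L : ℝ) ^ 2 * |β| with hv
  have hv0 : 0 < v := by positivity
  have hJ : ((2 * L / Q : ℕ) : ℝ) ≤ 2 * L / Q := by
    have := @Nat.cast_div_le ℝ _ _ _ (2 * L) Q
    push_cast at this
    exact this
  have h1 : ∀ j ∈ Icc 1 (2 * L / Q), mm L ((Q * j : ℕ) * (c / Q + β)) ≤
      L * (L / (2 * Q * v)) ^ (3 / 4 : ℝ) * (j : ℝ) ^ (-(3 / 4) : ℝ) := by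
    intro j hj
    rw [mem_Icc] at hj
    have hj1 : (1 : ℝ) ≤ j := by exact_mod_cast hj.1
    have hj2 : (j : ℝ) ≤ 2 * L / Q := by
      have : (j : ℝ) ≤ ((2 * L / Q : ℕ) : ℝ) := by exact_mod_cast hj.2
      linarith
    have hQj : (Q : ℝ) * j ≤ 2 * L := by
      rw [le_div_iff₀ (by positivity)] at hj2; linarith
    have hsmall : (Q : ℝ) * j * |β| ≤ 1 / 4 := by
      calc (Q : ℝ) * j * |β| ≤ (2 * L) * (1 / (Q * (8 * L))) := by
            apply mul_le_mul hQj hβ (abs_nonneg _) (by positivity)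
        _ = (1 / 4) * (1 / Q) := by field_simp; norm_num
        _ ≤ 1 / 4 := by
            have : 1 / (Q : ℝ) ≤ 1 := by rw [div_le_one (by positivity)]; exact hQ'
            linarith
    have hinv : mm L ((Q * j : ℕ) * (c / Q + β)) ≤ 1 / (2 * ((Q : ℝ) * j * |β|)) := by
      apply mm_le_inv L _ _ (by positivity)
      intro n
      have e1 : ((Q * j : ℕ) : ℝ) * (c / Q + β) - n = ((j * c - n : ℤ) : ℝ) + (Q : ℝ) * j * β := by
        push_cast; field_simp; ring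
      rw [e1]
      have e2 : |(Q : ℝ) * j * β| = (Q : ℝ) * j * |β| := by
        rw [abs_mul, abs_of_nonneg (by positivity : (0 : ℝ) ≤ (Q : ℝ) * j)]
      rcases eq_or_ne ((j : ℤ) * c - n) 0 with h | h
      · rw [h]; simp only [Int.cast_zero, zero_add]; rw [e2]
      · have h' : (1 : ℝ) ≤ |((j * c - n : ℤ) : ℝ)| := by
          have : 1 ≤ |(j : ℤ) * c - n| := Int.one_le_abs h
          exact_mod_cast this
        have h4 := abs_sub_abs_le_abs_sub (((j * c - n : ℤ) : ℝ)) (-((Q : ℝ) * j * β))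
        rw [abs_neg, sub_neg_eq_add, e2] at h4
        linarith
    have hmL := mm_le_L L ((Q * j : ℕ) * (c / Q + β))
    set w : ℝ := L / (2 * Q * v) / j with hw
    have hw0 : 0 < w := by positivity
    have hLw : 1 / (2 * ((Q : ℝ) * j * |β|)) = L * w := by
      rw [hw, hv]; field_simp
    have hmin : mm L ((Q * j : ℕ) * (c / Q + β)) ≤ L * w ^ (3 / 4 : ℝ) := by
      rcases le_or_gt 1 w with h | h
      · refine hmL.trans ?_
        have : 1 ≤ w ^ (3 / 4 : ℝ) := Real.one_le_rpow h (by norm_num)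
        nlinarith
      · refine hinv.trans ?_
        rw [hLw]
        have : w ≤ w ^ (3 / 4 : ℝ) := by
          conv_lhs => rw [← Real.rpow_one w]
          exact Real.rpow_le_rpow_of_exponent_ge hw0 h.le (by norm_num)
        gcongr
    refine hmin.trans (le_of_eq ?_)
    rw [hw, Real.div_rpow (by positivity) (by positivity), Real.rpow_neg (by positivity)]
    ring
  refine (Finset.sum_le_sum h1).trans ?_
  rw [← Finset.mul_sum]
  have h2 := sum_rpow (2 * L / Q)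
  have h3 : ((2 * L / Q : ℕ) : ℝ) ^ (1 / 4 : ℝ) ≤ (2 * L / Q) ^ (1 / 4 : ℝ) :=
    Real.rpow_le_rpow (by positivity) hJ (by norm_num)
  calc (L : ℝ) * (L / (2 * Q * v)) ^ (3 / 4 : ℝ) * ∑ j ∈ Icc 1 (2 * L / Q), (j : ℝ) ^ (-(3 / 4) : ℝ)
      ≤ (L : ℝ) * (L / (2 * Q * v)) ^ (3 / 4 : ℝ) * (4 * (2 * L / Q) ^ (1 / 4 : ℝ)) := by
        apply mul_le_mul_of_nonneg_left _ (by positivity)
        linarith
    _ ≤ 4 * ((L : ℝ) ^ 2 / Q) * v ^ (-(3 / 4) : ℝ) := by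
        have e1 : (L / (2 * Q * v) : ℝ) ^ (3 / 4 : ℝ) =
            ((L : ℝ) / Q) ^ (3 / 4 : ℝ) * (1 / 2) ^ (3 / 4 : ℝ) * v ^ (-(3 / 4) : ℝ) := by
          have : (L / (2 * Q * v) : ℝ) = ((L : ℝ) / Q) * (1 / 2) * v⁻¹ := by field_simp
          rw [this, Real.mul_rpow (by positivity) (by positivity),
            Real.mul_rpow (by positivity) (by positivity), Real.inv_rpow (by positivity),
            Real.rpow_neg (by positivity)]
        have e2 : (2 * L / Q : ℝ) ^ (1 / 4 : ℝ) = 2 ^ (1 / 4 : ℝ) * ((L : ℝ) / Q) ^ (1 / 4 : ℝ) := by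
          have : (2 * L / Q : ℝ) = 2 * ((L : ℝ) / Q) := by ring
          rw [this, Real.mul_rpow (by positivity) (by positivity)]
        have e3 : ((L : ℝ) / Q) ^ (3 / 4 : ℝ) * ((L : ℝ) / Q) ^ (1 / 4 : ℝ) = (L : ℝ) / Q := by
          rw [← Real.rpow_add (by positivity)]; norm_num
        have e4 : (1 / 2 : ℝ) ^ (3 / 4 : ℝ) * 2 ^ (1 / 4 : ℝ) ≤ 1 := by
          have : (1 / 2 : ℝ) ^ (3 / 4 : ℝ) = 2 ^ (-(3 / 4) : ℝ) := by
            rw [one_div, Real.inv_rpow (by norm_num), Real.rpow_neg (by norm_num)]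
          rw [this, ← Real.rpow_add (by norm_num)]
          apply Real.rpow_le_one_of_one_le_of_nonpos (by norm_num) (by norm_num)
        rw [e1, e2]
        have e5 : (L : ℝ) * (((L : ℝ) / Q) ^ (3 / 4 : ℝ) * (1 / 2) ^ (3 / 4 : ℝ) * v ^ (-(3 / 4) : ℝ)) *
            (4 * (2 ^ (1 / 4 : ℝ) * ((L : ℝ) / Q) ^ (1 / 4 : ℝ))) =
            ((1 / 2 : ℝ) ^ (3 / 4 : ℝ) * 2 ^ (1 / 4 : ℝ)) *
            (4 * L * (((L : ℝ) / Q) ^ (3 / 4 : ℝ) * ((L : ℝ) / Q) ^ (1 / 4 : ℝ)) * v ^ (-(3 / 4) : ℝ)) := by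
          ring
        rw [e5, e3]
        have e6 : 0 ≤ 4 * L * ((L : ℝ) / Q) * v ^ (-(3 / 4) : ℝ) := by positivity
        calc _ ≤ 1 * (4 * L * ((L : ℝ) / Q) * v ^ (-(3 / 4) : ℝ)) := by
              apply mul_le_mul_of_nonneg_right e4 e6
          _ = _ := by ring

lemma part_ii (L Q : ℕ) (hL : 1 ≤ L) (hQ : 1 ≤ Q) (c : ℤ) (β : ℝ)
    (hβ : |β| ≤ 1 / (Q * (8 * L))) :
    ∑ j ∈ Icc 1 (2 * L / Q), mm L ((Q * j : ℕ) * (c / Q + β)) ≤
      8 * ((L : ℝ) ^ 2 / Q * (1 + (L : ℝ) ^ 2 * |β|) ^ (-(3 / 4) : ℝ)) := by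
  have hQ' : (1 : ℝ) ≤ Q := by exact_mod_cast hQ
  have hL' : (1 : ℝ) ≤ L := by exact_mod_cast hL
  have hA : 0 ≤ (L : ℝ) ^ 2 / Q := by positivity
  have h1 := part_ii_1 L Q hQ c β
  set v : ℝ := (L : ℝ) ^ 2 * |β| with hv
  have hv0 : 0 ≤ v := by positivity
  have h2le : (2 : ℝ)⁻¹ ≤ 2 ^ (-(3 / 4) : ℝ) := by
    rw [← Real.rpow_neg_one]
    exact Real.rpow_le_rpow_of_exponent_le (by norm_num) (by norm_num)
  rcases le_or_gt v 1 with h | h
  · have h2 : (2 : ℝ) ^ (-(3 / 4) : ℝ) ≤ (1 + v) ^ (-(3 / 4) : ℝ) :=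
      Real.rpow_le_rpow_of_nonpos (by positivity) (by linarith) (by norm_num)
    have h3 : (2 : ℝ)⁻¹ ≤ (1 + v) ^ (-(3 / 4) : ℝ) := h2le.trans h2
    have h4 : (L : ℝ) ^ 2 / Q * (2 : ℝ)⁻¹ ≤ (L : ℝ) ^ 2 / Q * (1 + v) ^ (-(3 / 4) : ℝ) := by
      gcongr
    linarith
  · have hβ0 : β ≠ 0 := by
      rintro rfl
      rw [hv] at h; simp at h; linarith
    have h2 := part_ii_2 L Q hL hQ c β hβ0 hβ
    rw [← hv] at h2
    have h3 : v ^ (-(3 / 4) : ℝ) ≤ 2 * (1 + v) ^ (-(3 / 4) : ℝ) := by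
      have h4 : v ^ (-(3 / 4) : ℝ) ≤ ((1 + v) * 2⁻¹) ^ (-(3 / 4) : ℝ) :=
        Real.rpow_le_rpow_of_nonpos (by positivity) (by linarith) (by norm_num)
      have h4' : ((1 + v) * (2 : ℝ)⁻¹) ^ (-(3 / 4) : ℝ) = (1 + v) ^ (-(3 / 4) : ℝ) * (2 : ℝ)⁻¹ ^ (-(3 / 4) : ℝ) :=
        Real.mul_rpow (by positivity) (by positivity)
      rw [h4'] at h4
      have h5 : ((2 : ℝ)⁻¹) ^ (-(3 / 4) : ℝ) ≤ 2 := by
        rw [Real.inv_rpow (by norm_num), Real.rpow_neg (by norm_num), inv_inv]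
        calc (2 : ℝ) ^ (3 / 4 : ℝ) ≤ 2 ^ (1 : ℝ) :=
              Real.rpow_le_rpow_of_exponent_le (by norm_num) (by norm_num)
          _ = 2 := Real.rpow_one 2
      have h6 : 0 ≤ (1 + v) ^ (-(3 / 4) : ℝ) := by positivity
      nlinarith
    calc _ ≤ 4 * ((L : ℝ) ^ 2 / Q) * v ^ (-(3 / 4) : ℝ) := h2
      _ ≤ 4 * ((L : ℝ) ^ 2 / Q) * (2 * (1 + v) ^ (-(3 / 4) : ℝ)) := by gcongr
      _ = _ := by ring

theorem t_WEY2 : Pool.Agent.N699.AO.WEY2 := by
  refine ⟨54, by norm_num, ?_⟩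
  intro L Q hL hQ hQL c hc β hβ
  have hQ' : (1 : ℝ) ≤ Q := by exact_mod_cast hQ
  have hL' : (1 : ℝ) ≤ L := by exact_mod_cast hL
  rw [← Finset.sum_filter_add_sum_filter_not (Icc 1 (2 * L)) (fun u => Q ∣ u)]
  have h1 := part_i L Q hL hQ hQL c hc β hβ
  have h2 := part_ii L Q hL hQ c β hβ
  have himg : (Icc 1 (2 * L)).filter (fun u => Q ∣ u) = (Icc 1 (2 * L / Q)).image (fun j => Q * j) := by
    ext u
    simp only [mem_filter, mem_Icc, mem_image]
    constructor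
    · rintro ⟨⟨hu1, hu2⟩, j, rfl⟩
      refine ⟨j, ⟨?_, ?_⟩, rfl⟩
      · by_contra hj
        have : j = 0 := by omega
        rw [this] at hu1; omega
      · rw [Nat.le_div_iff_mul_le (by omega)]; linarith
    · rintro ⟨j, ⟨hj1, hj2⟩, rfl⟩
      rw [Nat.le_div_iff_mul_le (by omega)] at hj2
      refine ⟨⟨Nat.mul_pos (by omega) (by omega), by linarith⟩, dvd_mul_right _ _⟩
  have hinj : Set.InjOn (fun j : ℕ => Q * j) (Icc 1 (2 * L / Q) : Finset ℕ) := by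
    intro a _ b _ hab
    exact Nat.eq_of_mul_eq_mul_left (by omega) hab
  rw [himg, Finset.sum_image hinj]
  have h3 : 0 ≤ (L : ℝ) ^ 2 / Q * (1 + (L : ℝ) ^ 2 * |β|) ^ (-(3 / 4) : ℝ) := by positivity
  linarith

end Pool.Agent.N273.AO
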