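import Pool.Agent.N661.BR.Base
import Pool.Agent.R989.Wvm

/-!
Project BR (helper661, MP_6b977f_mp), task ERG: ergodic stationary waves with finite fourth moment
whose directions have no atoms modulo `π` (helper273).
-/

set_option autoImplicit false
open MeasureTheory Filter Topology Complex ProbabilityTheory
open scoped ContDiff

namespace Pool.Agent.N273.BRERG

open Pool.Agent.W745.RW (lap dx dy TF Dp W)
open Pool.Agent.N661.BR

/-- the coercion -/
def co : MW → ℂ → ℝ := fun f y => f y

theorem co_meas : Measurable co := measurable_pi_lambda _ fun y => meas_eval y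

variable {μ : Measure MW}

theorem mp_shift (hs : IsStationary μ) (x : ℂ) : MeasurePreserving (shift x) μ μ :=
  ⟨meas_shift x, hs x⟩

theorem wv (hs : IsStationary μ) (h4 : Integrable (fun f : MW => f 0 ^ 4) μ) :
    Pool.Agent.R989.Asm.Wv μ co := by
  refine ⟨meas_eval, fun f => f.2.1, fun f => f.2.2, fun x => ?_, h4⟩
  have h1 : μ.map (fun (s : MW) (y : ℂ) => co s (y + x)) = (μ.map (shift x)).map co := by
    rw [Measure.map_map co_meas (meas_shift x)]
    rfl
  rw [h1, hs x]

theorem condExp_const [IsProbabilityMeasure μ] (he : IsErgodic μ) (g : MW → ℝ)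
    (hg : Integrable g μ) :
    μ[g | (Pool.Agent.R989.Erg.inv (μ.map co)).comap co] =ᵐ[μ] fun _ => ∫ f, g f ∂μ := by
  have hm : (Pool.Agent.R989.Erg.inv (μ.map co)).comap co ≤ (inferInstance : MeasurableSpace MW) := by
    rintro B ⟨A, hA, rfl⟩
    exact co_meas hA.1
  have h01 : ∀ B : Set MW, MeasurableSet[(Pool.Agent.R989.Erg.inv (μ.map co)).comap co] B →
      μ B = 0 ∨ μ B = 1 := by
    rintro B ⟨A, hA, rfl⟩
    refine he _ (co_meas hA.1) fun x => ?_
    have h1 : co ⁻¹' (Pool.Agent.R989.Erg.sh x ⁻¹' A) =ᵐ[μ] co ⁻¹' A :=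
      (MeasurePreserving.quasiMeasurePreserving ⟨co_meas, rfl⟩).preimage_ae_eq (hA.2 x)
    exact h1
  symm
  refine ae_eq_condExp_of_forall_setIntegral_eq hm hg (fun s _ _ => integrableOn_const
    (measure_ne_top _ _)) (fun s hs _ => ?_) aestronglyMeasurable_const
  rcases h01 s hs with h | h
  · rw [Measure.restrict_eq_zero.2 h, integral_zero_measure, integral_zero_measure]
  · have h2 : μ.restrict s = μ := by
      apply Measure.restrict_eq_self_of_ae_mem
      rw [ae_iff]
      have := prob_compl_eq_zero_iff (μ := μ) (hm s hs)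
      exact this.2 h
    rw [h2, integral_const]
    simp

theorem mem4 [IsProbabilityMeasure μ] (hs : IsStationary μ)
    (h4 : Integrable (fun f : MW => f 0 ^ 4) μ) (w : ℂ) : MemLp (fun f : MW => f w) 4 μ := by
  have h1 : Integrable (fun f : MW => f w ^ 4) μ := by
    have := (mp_shift hs w).integrable_comp_of_integrable h4
    refine this.congr (Eventually.of_forall fun f => ?_)
    show (f (0 + w)) ^ 4 = f w ^ 4
    rw [zero_add]
  rw [← integrable_norm_rpow_iff (meas_eval w).aestronglyMeasurable (by norm_num) (by norm_num)]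
  refine h1.congr (Eventually.of_forall fun f => ?_)
  have e4 : (4 : ENNReal).toReal = ((4 : ℕ) : ℝ) := by norm_num
  show f w ^ 4 = ‖f w‖ ^ ((4 : ENNReal).toReal)
  rw [e4, Real.rpow_natCast, Real.norm_eq_abs, Even.pow_abs (by decide)]

theorem mean_eq (hs : IsStationary μ) (w : ℂ) : ∫ f : MW, f w ∂μ = ∫ f : MW, f 0 ∂μ := by
  have h1 : ∫ f : MW, f 0 ∂(μ.map (shift w)) = ∫ f : MW, (shift w f) 0 ∂μ :=
    integral_map (meas_shift w).aemeasurable (meas_eval 0).aestronglyMeasurable
  rw [hs w] at h1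
  rw [h1]
  refine integral_congr_ae (Eventually.of_forall fun f => ?_)
  show f w = f (0 + w)
  rw [zero_add]

/-! ### averages of exponentials -/

/-- the average of `cos ((i - j) t)` -/
noncomputable def CC (N : ℕ) (t : ℝ) : ℝ :=
  1 / (N : ℝ) ^ 2 * ∑ i ∈ Finset.range N, ∑ j ∈ Finset.range N, Real.cos (((i : ℝ) - j) * t)

theorem CC_eq (N : ℕ) (t : ℝ) :
    CC N t = 1 / (N : ℝ) ^ 2 * ‖∑ j ∈ Finset.range N, Complex.exp ((t * I : ℂ)) ^ j‖ ^ 2 := by
  have e1 : ∀ j : ℕ, Complex.exp ((t * I : ℂ)) ^ j =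
      ((Real.cos (j * t) : ℝ) : ℂ) + ((Real.sin (j * t) : ℝ) : ℂ) * I := by
    intro j
    rw [← Complex.exp_nat_mul, Complex.ofReal_cos, Complex.ofReal_sin, ← Complex.exp_mul_I]
    congr 1
    push_cast
    ring
  have e2 : ∑ j ∈ Finset.range N, Complex.exp ((t * I : ℂ)) ^ j =
      ((∑ j ∈ Finset.range N, Real.cos (j * t) : ℝ) : ℂ) +
      ((∑ j ∈ Finset.range N, Real.sin (j * t) : ℝ) : ℂ) * I := by
    rw [Finset.sum_congr rfl fun j _ => e1 j, Finset.sum_add_distrib, ← Finset.sum_mul]
    push_cast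
    rfl
  rw [e2, Complex.sq_norm, Complex.normSq_add_mul_I, CC]
  congr 1
  rw [sq, sq, Finset.sum_mul_sum, Finset.sum_mul_sum, ← Finset.sum_add_distrib]
  refine Finset.sum_congr rfl fun i _ => ?_
  rw [← Finset.sum_add_distrib]
  refine Finset.sum_congr rfl fun j _ => ?_
  rw [sub_mul, Real.cos_sub]

theorem CC_abs (N : ℕ) (t : ℝ) : |CC N t| ≤ 1 := by
  rw [CC_eq, abs_of_nonneg (by positivity)]
  have h1 : ‖∑ j ∈ Finset.range N, Complex.exp ((t * I : ℂ)) ^ j‖ ≤ N := by
    refine (norm_sum_le _ _).trans ?_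
    have : ∀ j ∈ Finset.range N, ‖Complex.exp ((t * I : ℂ)) ^ j‖ = 1 := by
      intro j _
      rw [norm_pow, Complex.norm_exp_ofReal_mul_I, one_pow]
    rw [Finset.sum_congr rfl this]
    simp
  rcases Nat.eq_zero_or_pos N with h | h
  · subst h
    simp
  · have hN : (0 : ℝ) < N := by exact_mod_cast h
    rw [one_div, inv_mul_le_iff₀ (by positivity), mul_one]
    exact pow_le_pow_left₀ (norm_nonneg _) h1 2

theorem CC_tendsto {t : ℝ} (h0 : t ≠ 0) (h1 : |t| ≤ 1) :
    Tendsto (fun N => CC N t) atTop (𝓝 0) := by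
  set z : ℂ := Complex.exp ((t * I : ℂ)) with hz
  have hz1 : z ≠ 1 := by
    intro h
    rw [hz, Complex.exp_eq_one_iff] at h
    obtain ⟨n, hn⟩ := h
    have h3 : t = n * (2 * Real.pi) := by
      have h4 : (t : ℂ) * I = ((n * (2 * Real.pi) : ℝ) : ℂ) * I := by
        rw [hn]; push_cast; ring
      have h5 := mul_right_cancel₀ Complex.I_ne_zero h4
      exact_mod_cast h5
    have hn0 : n ≠ 0 := by
      rintro rfl
      apply h0
      rw [h3]; simp
    have h6 : (1 : ℝ) ≤ |(n : ℝ)| := by
      have : 1 ≤ |n| := Int.one_le_abs hn0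
      exact_mod_cast this
    rw [h3, abs_mul, abs_of_pos (by positivity : (0 : ℝ) < 2 * Real.pi)] at h1
    have := Real.pi_gt_three
    nlinarith
  have hz2 : 0 < ‖z - 1‖ := norm_pos_iff.2 (sub_ne_zero.2 hz1)
  have hzn : ∀ n : ℕ, ‖z ^ n‖ = 1 := fun n => by
    rw [norm_pow, hz, Complex.norm_exp_ofReal_mul_I, one_pow]
  have key : ∀ N : ℕ, CC N t ≤ (2 / ‖z - 1‖) ^ 2 * (1 / (N : ℝ) ^ 2) := by
    intro N
    rw [CC_eq, mul_comm]
    apply mul_le_mul_of_nonneg_right _ (by positivity)
    apply pow_le_pow_left₀ (norm_nonneg _)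
    have h2 : (∑ j ∈ Finset.range N, z ^ j) = (z ^ N - 1) / (z - 1) := geom_sum_eq hz1 N
    rw [h2, norm_div]
    apply div_le_div_of_nonneg_right _ hz2.le
    refine (norm_sub_le _ _).trans ?_
    rw [hzn, norm_one]
    norm_num
  have hnn : ∀ N : ℕ, 0 ≤ CC N t := fun N => by rw [CC_eq]; positivity
  refine squeeze_zero hnn key ?_
  have h3 : Tendsto (fun N : ℕ => 1 / (N : ℝ) ^ 2) atTop (𝓝 0) := by
    have h4 := (tendsto_one_div_atTop_nhds_zero_nat (𝕜 := ℝ)).pow 2
    simp only [one_div, inv_pow] at h4 ⊢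
    rwa [zero_pow two_ne_zero] at h4
  have h5 := h3.const_mul ((2 / ‖z - 1‖) ^ 2)
  rwa [mul_zero] at h5

theorem nu_zero {ν : Measure ℝ} [IsProbabilityMeasure ν] (hp : parallel ν = 0) :
    ∀ᵐ α ∂ν, Real.cos α ≠ 0 := by
  rw [ae_iff]
  simp only [ne_eq, not_not]
  set A : Set ℝ := {a | Real.cos a = 0} with hA
  have h1 : (ν.prod ν) (A ×ˢ A) = ν A * ν A := Measure.prod_prod A A
  have h2 : A ×ˢ A ⊆ {p : ℝ × ℝ | Real.sin (p.1 - p.2) = 0} := by
    rintro ⟨a, b⟩ ⟨ha, hb⟩
    have ha' : Real.cos a = 0 := ha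
    have hb' : Real.cos b = 0 := hb
    show Real.sin (a - b) = 0
    rw [Real.sin_sub, ha', hb']
    ring
  have h3 : (ν.prod ν) {p : ℝ × ℝ | Real.sin (p.1 - p.2) = 0} = 0 := by
    have := hp
    unfold parallel at this
    rwa [measureReal_eq_zero_iff] at this
  have h4 : (ν.prod ν) (A ×ˢ A) = 0 := measure_mono_null h2 h3
  rw [h1] at h4
  exact mul_self_eq_zero.1 h4

theorem int_CC {ν : Measure ℝ} [IsProbabilityMeasure ν] (hp : parallel ν = 0) :
    Tendsto (fun N : ℕ => ∫ α, CC N (Real.cos α) ∂ν) atTop (𝓝 0) := by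
  have h1 : Tendsto (fun N : ℕ => ∫ α, CC N (Real.cos α) ∂ν) atTop (𝓝 (∫ α, (0 : ℝ) ∂ν)) := by
    apply tendsto_integral_of_dominated_convergence (fun _ => (1 : ℝ))
    · intro N
      apply Continuous.aestronglyMeasurable
      unfold CC
      fun_prop
    · exact integrable_const 1
    · intro N
      exact Eventually.of_forall fun α => by rw [Real.norm_eq_abs]; exact CC_abs N _
    · filter_upwards [nu_zero hp] with α hα
      exact CC_tendsto hα (Real.abs_cos_le_one α)
  rwa [integral_zero] at h1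

theorem integrable_of_bdd (i j : ℕ) (ν : Measure ℝ) [IsProbabilityMeasure ν] :
    Integrable (fun α => Real.cos (((i : ℝ) - j) * Real.cos α)) ν := by
  refine Integrable.mono' (integrable_const (1 : ℝ)) ?_ (Eventually.of_forall fun α => ?_)
  · apply Continuous.aestronglyMeasurable
    fun_prop
  · rw [Real.norm_eq_abs]
    exact Real.abs_cos_le_one _

theorem ERG : S_ERG := by
  intro μ hμ hs he h4 m ν hν hcov hpar
  have hm4 := mem4 hs h4
  have hm2 : ∀ w : ℂ, MemLp (fun f : MW => f w) 2 μ := fun w =>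
    (hm4 w).mono_exponent (by norm_num)
  have hm1 : ∀ w : ℂ, Integrable (fun f : MW => f w) μ := fun w =>
    (hm4 w).integrable (by norm_num)
  have hpi : ∀ w w' : ℂ, Integrable (fun f : MW => f w * f w') μ := fun w w' =>
    (hm2 w).integrable_mul (hm2 w')
  have cov0 : cov ν 0 = 1 := by
    unfold cov
    simp
  have hm0 : 0 ≤ m := by
    have h1 := hcov 0 0
    rw [sub_self, cov0, mul_one] at h1
    rw [← h1]
    exact integral_nonneg fun f => mul_self_nonneg _
  have H := wv hs h4
  refine ⟨⟨hm0, hm4, hcov, fun w => ?_⟩, fun w => ?_⟩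
  · -- the four point functions
    have hc : ∀ w : ℂ, μ[fun s => co s 0 * co s w |
        (Pool.Agent.R989.Erg.inv (μ.map co)).comap co] =ᵐ[μ]
        fun s => (fun _ : MW => m) s *
          Pool.Agent.Results.MP_6b977f_mp.FourPointFunctions.cov ((Kernel.const MW ν) s) w := by
      intro w
      refine (condExp_const he _ (hpi 0 w)).trans (Eventually.of_forall fun s => ?_)
      show ∫ f : MW, f 0 * f w ∂μ = m * cov (Kernel.const MW ν s) w
      rw [hcov, Kernel.const_apply]
      congr 1
      unfold cov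
      refine integral_congr_ae (Eventually.of_forall fun α => ?_)
      show Real.cos _ = Real.cos _
      rw [← Real.cos_neg]
      congr 1
      simp only [Complex.sub_re, Complex.sub_im, Complex.zero_re, Complex.zero_im]
      ring
    have h1 := (Pool.Agent.R989.Asm.main H (fun _ => m) (Kernel.const MW ν) hc w).2
      (Eventually.of_forall fun s => by
        show parallel (Kernel.const MW ν s) = 0
        rw [Kernel.const_apply]
        exact hpar)
    have hint : Integrable (fun s : MW => ∏ i, co s (w i)) μ := by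
      have h5 := H.xa w
      exact (integrable_map_measure (Pool.Agent.R989.Asm.XA_meas w).aestronglyMeasurable
        co_meas.aemeasurable).1 h5
    have h2 := (condExp_const he _ hint).symm.trans h1
    have h3 : ∀ᵐ s ∂μ, ∫ f : MW, ∏ i, f (w i) ∂μ = m ^ 2 * gauss ν w := by
      filter_upwards [h2] with s hs'
      exact hs'
    obtain ⟨s, hs'⟩ := h3.exists
    exact hs'
  · -- the mean
    rw [mean_eq hs w]
    set e := ∫ f : MW, f 0 ∂μ with hedef
    have hmean : ∀ w : ℂ, ∫ f : MW, f w ∂μ = e := mean_eq hs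
    have key : ∀ N : ℕ, 1 ≤ N → e ^ 2 ≤ m * ∫ α, CC N (Real.cos α) ∂ν := by
      intro N hN
      have hNR : (0 : ℝ) < N := by exact_mod_cast hN
      set g : MW → ℝ := fun f => 1 / (N : ℝ) * ∑ j ∈ Finset.range N, f (j : ℂ) with hg
      have hgi : Integrable g μ := by
        have hgi0 : Integrable (fun f : MW => ∑ j ∈ Finset.range N, f (j : ℂ)) μ :=
          integrable_finsetSum (Finset.range N) (f := fun (j : ℕ) (f : MW) => f (j : ℂ))
            fun j _ => hm1 (j : ℂ)
        exact hgi0.const_mul _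
      have hge : ∫ f, g f ∂μ = e := by
        have e0 : ∫ f : MW, ∑ j ∈ Finset.range N, f (j : ℂ) ∂μ =
            ∑ j ∈ Finset.range N, ∫ f : MW, f (j : ℂ) ∂μ :=
          integral_finsetSum (Finset.range N) (f := fun (j : ℕ) (f : MW) => f (j : ℂ))
            fun j _ => hm1 (j : ℂ)
        rw [hg, integral_const_mul, e0]
        simp only [hmean, Finset.sum_const, Finset.card_range, nsmul_eq_mul]
        field_simp
      have hg2 : ∀ f, g f ^ 2 = 1 / (N : ℝ) ^ 2 * ∑ i ∈ Finset.range N, ∑ j ∈ Finset.range N,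
          f (i : ℂ) * f (j : ℂ) := by
        intro f
        rw [hg]
        simp only
        rw [mul_pow, one_div, one_div, inv_pow]
        congr 1
        rw [sq, Finset.sum_mul_sum]
      have hii : ∀ i j : ℕ, Integrable (fun f : MW => f (i : ℂ) * f (j : ℂ)) μ := fun i j =>
        hpi _ _
      have hg2i : Integrable (fun f => g f ^ 2) μ := by
        simp only [hg2]
        exact (integrable_finsetSum _ fun i _ => integrable_finsetSum _ fun j _ =>
          hii i j).const_mul _
      have hg2e : ∫ f, g f ^ 2 ∂μ = m * ∫ α, CC N (Real.cos α) ∂ν := by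
        simp only [hg2]
        rw [integral_const_mul, integral_finsetSum _ fun i _ => integrable_finsetSum _ fun j _ =>
          hii i j]
        have e1 : ∀ i : ℕ, ∫ f : MW, ∑ j ∈ Finset.range N, f (i : ℂ) * f (j : ℂ) ∂μ =
            ∑ j ∈ Finset.range N, m * ∫ α, Real.cos (((i : ℝ) - j) * Real.cos α) ∂ν := by
          intro i
          rw [integral_finsetSum _ fun j _ => hii i j]
          refine Finset.sum_congr rfl fun j _ => ?_
          rw [hcov]
          congr 1
          unfold cov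
          refine integral_congr_ae (Eventually.of_forall fun α => ?_)
          show Real.cos _ = Real.cos _
          congr 1
          simp
        simp only [e1]
        unfold CC
        rw [integral_const_mul, integral_finsetSum _ fun i _ => integrable_finsetSum _ fun j _ =>
          (integrable_of_bdd i j ν)]
        have e2 : ∀ i : ℕ, ∫ α, ∑ j ∈ Finset.range N, Real.cos (((i : ℝ) - j) * Real.cos α) ∂ν =
            ∑ j ∈ Finset.range N, ∫ α, Real.cos (((i : ℝ) - j) * Real.cos α) ∂ν := fun i =>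
          integral_finsetSum _ fun j _ => integrable_of_bdd i j ν
        simp only [e2]
        simp only [← Finset.mul_sum]
        ring
      have h5 : 0 ≤ ∫ f, (g f - e) ^ 2 ∂μ := integral_nonneg fun f => sq_nonneg _
      have h6 : ∫ f, (g f - e) ^ 2 ∂μ = (∫ f, g f ^ 2 ∂μ) - e ^ 2 := by
        have e3 : ∀ f, (g f - e) ^ 2 = g f ^ 2 - 2 * e * g f + e ^ 2 := fun f => by ring
        simp only [e3]
        have i1 : Integrable (fun f => 2 * e * g f) μ := hgi.const_mul _
        have i2 : Integrable (fun f => g f ^ 2 - 2 * e * g f) μ := hg2i.sub i1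
        have q1 : ∫ f, (g f ^ 2 - 2 * e * g f + e ^ 2) ∂μ =
            (∫ f, (g f ^ 2 - 2 * e * g f) ∂μ) + ∫ f : MW, e ^ 2 ∂μ :=
          integral_add i2 (integrable_const _)
        have q2 : ∫ f, (g f ^ 2 - 2 * e * g f) ∂μ = (∫ f, g f ^ 2 ∂μ) - ∫ f, 2 * e * g f ∂μ :=
          integral_sub hg2i i1
        have q3 : ∫ f, 2 * e * g f ∂μ = 2 * e * e := by rw [integral_const_mul, hge]
        have q4 : ∫ f : MW, e ^ 2 ∂μ = e ^ 2 := by simp
        rw [q1, q2, q3, q4]
        ring
      rw [h6, hg2e] at h5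
      linarith
    have h7 : e ^ 2 ≤ m * 0 := by
      apply ge_of_tendsto ((int_CC hpar).const_mul m)
      filter_upwards [eventually_ge_atTop 1] with N hN
      exact key N hN
    rw [mul_zero] at h7
    have h8 : e ^ 2 = 0 := le_antisymm h7 (sq_nonneg _)
    exact pow_eq_zero_iff (two_ne_zero) |>.1 h8

end Pool.Agent.N273.BRERG
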