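import Pool.Agent.N657.ZS.Stm

/-!
# ZS: the change of the flux functional in one step
-/

namespace Pool.Agent.N273.ZSTEL

open Pool.Agent.TH964.CF Pool.Agent.N657.ZS

variable {q : ℕ}

lemma adj_symm {z w : Fin 4 → ℤ} (h : adj z w) : adj w z := fun i => by
  rw [abs_sub_comm]; exact h i

lemma B3_sub {S τ : ℤ} (hτ : τ = 0 ∨ τ = 1) (θ : Lk ℤ → ZMod q) : B3 S τ θ ⊆ B4 S θ := by
  rintro z ⟨h1, h2, i, j, hij, hi, hj, hf⟩
  refine ⟨h1, ?_⟩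
  rcases hτ with rfl | rfl
  · exact Or.inl ⟨h2, i, j, hij, hf⟩
  · exact Or.inr ⟨h2, i, j, hij, hi, hj, hf⟩

lemma Rch_mono {B B' : Set (Fin 4 → ℤ)} (h : B ⊆ B') {z w : Fin 4 → ℤ} (hr : Rch B z w) :
    Rch B' z w := by
  induction hr with
  | refl => exact Relation.ReflTransGen.refl
  | tail _ hab ih => exact ih.tail ⟨h hab.1, hab.2⟩

lemma Rch_one {B : Set (Fin 4 → ℤ)} {z w : Fin 4 → ℤ} (hw : w ∈ B) (h : adj z w) : Rch B z w :=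
  Relation.ReflTransGen.single ⟨hw, h⟩

lemma Rch_trans {B : Set (Fin 4 → ℤ)} {z w v : Fin 4 → ℤ} (h1 : Rch B z w) (h2 : Rch B w v) :
    Rch B z v := Relation.ReflTransGen.trans h1 h2

lemma Rch_refl {B : Set (Fin 4 → ℤ)} (z : Fin 4 → ℤ) : Rch B z z := Relation.ReflTransGen.refl

lemma Om_of {R S : ℤ} (hRS : R < S) {z z' : Fin 4 → ℤ} (h : Inn R S z) (ha : adj z z') :
    Om S z' := by
  obtain ⟨h1, h2, h3, h4⟩ := h
  have a0 := abs_le.1 (ha 0)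
  have a2 := abs_le.1 (ha 2)
  have a3 := abs_le.1 (ha 3)
  have b2 := abs_lt.1 h3
  have b3 := abs_lt.1 h4
  refine ⟨by omega, by omega, abs_le.2 ⟨by omega, by omega⟩, abs_le.2 ⟨by omega, by omega⟩⟩

/-- The bad sites of the slab whose cluster lies in the inner region. -/
def W (R S : ℤ) (θ : Lk ℤ → ZMod q) : Set (Fin 4 → ℤ) :=
  {z | z ∈ B4 S θ ∧ ∀ w, Rch (B4 S θ) z w → Inn R S w}

lemma W_Inn {R S : ℤ} {θ : Lk ℤ → ZMod q} {z : Fin 4 → ℤ} (h : z ∈ W R S θ) : Inn R S z :=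
  h.2 z (Rch_refl z)

lemma W1 {R S : ℤ} (hRS : R < S) {θ : Lk ℤ → ZMod q} :
    ∀ z ∈ W R S θ, -S < z 0 ∧ z 0 < -1 ∧ |z 2| < S ∧ |z 3| < S ∧ (z 1 = 0 ∨ z 1 = 1) := by
  intro z hz
  obtain ⟨h1, h2, h3, h4⟩ := W_Inn hz
  refine ⟨by omega, h2, h3, h4, ?_⟩
  rcases hz.1.2 with h | h
  · exact Or.inl h.1
  · exact Or.inr h.1

lemma W2 {R S : ℤ} (hRS : R < S) {θ : Lk ℤ → ZMod q} :
    ∀ z ∈ W R S θ, ∀ z', adj z z' → z' ∉ W R S θ →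
      (z' 1 = 0 → ∀ i j : Fin 4, i < j → fl θ z' i j = 0) ∧
      (z' 1 = 1 → ∀ i j : Fin 4, i < j → i ≠ 1 → j ≠ 1 → fl θ z' i j = 0) := by
  intro z hz z' ha hz'
  have key : z' ∉ B4 S θ := by
    intro hB
    exact hz' ⟨hB, fun w hw => hz.2 w (Rch_trans (Rch_one hB ha) hw)⟩
  have hO := Om_of hRS (W_Inn hz) ha
  constructor
  · intro h0 i j hij
    by_contra hf
    exact key ⟨hO, Or.inl ⟨h0, i, j, hij, hf⟩⟩
  · intro h0 i j hij hi hj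
    by_contra hf
    exact key ⟨hO, Or.inr ⟨h0, i, j, hij, hi, hj, hf⟩⟩

/-- The good sites of the slice outside of `W` whose slab cluster is below the line. -/
def A (R S τ : ℤ) (θ : Lk ℤ → ZMod q) : Set (Fin 4 → ℤ) :=
  {z | good R S τ θ z ∧ z ∉ W R S θ ∧ ∀ w, Rch (B4 S θ) z w → w 2 < 0}

lemma A1 {R S τ : ℤ} (hRS : R < S) {θ : Lk ℤ → ZMod q} :
    ∀ z ∈ A R S τ θ, -S < z 0 ∧ z 0 < -1 ∧ -S < z 2 ∧ z 2 < 0 ∧ |z 3| < S ∧ z 1 = τ := by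
  rintro z ⟨hg, -, hc⟩
  obtain ⟨h1, h2, h3, h4⟩ := hg.2 z (Rch_refl z)
  exact ⟨by omega, h2, (abs_lt.1 h3).1, hc z (Rch_refl z), h4, hg.1.2.1⟩

lemma A2 {R S τ : ℤ} (hτ : τ = 0 ∨ τ = 1) (hRS : R < S) {θ : Lk ℤ → ZMod q} :
    ∀ z ∈ A R S τ θ, ∀ z', adj z z' → z' 1 = τ → z' ∉ A R S τ θ →
      ∀ i j : Fin 4, i < j → i ≠ 1 → j ≠ 1 → fl θ z' i j = 0 := by
  rintro z ⟨hg, hW, hc⟩ z' ha h1 hz' i j hij hi hj
  by_contra hf
  have hB : z' ∈ B3 S τ θ := ⟨Om_of hRS (hg.2 z (Rch_refl z)) ha, h1, i, j, hij, hi, hj, hf⟩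
  have hB4 : z' ∈ B4 S θ := B3_sub hτ θ hB
  have hz4 : z ∈ B4 S θ := B3_sub hτ θ hg.1
  refine hz' ⟨⟨hB, fun w hw => hg.2 w (Rch_trans (Rch_one hB ha) hw)⟩, ?_, ?_⟩
  · intro hW'
    exact hW ⟨hz4, fun w hw => hW'.2 w (Rch_trans (Rch_one hz4 (adj_symm ha)) hw)⟩
  · intro w hw
    exact hc w (Rch_trans (Rch_one hB4 ha) hw)

lemma HP_line {R S : ℤ} (hR : R < S) {θ : Lk ℤ → ZMod q} (hP : HP R S θ) {t : ℤ}
    (h1 : -R ≤ t) (h2 : t ≤ -1) (hf : fl θ ![t, 0, 0, 0] 0 1 ≠ 0) (hR0 : 1 ≤ R) :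
    ![t, 0, 0, 0] ∈ W R S θ := by
  have hB : (![t, 0, 0, 0] : Fin 4 → ℤ) ∈ B4 S θ := by
    refine ⟨⟨?_, ?_, ?_, ?_⟩, Or.inl ⟨rfl, 0, 1, by decide, hf⟩⟩
    · show -S ≤ t; omega
    · show t ≤ -1; omega
    · show |(0 : ℤ)| ≤ S; simp; omega
    · show |(0 : ℤ)| ≤ S; simp; omega
  refine ⟨hB, hP _ hB t h1 h2 ⟨_, Rch_refl _, le_refl t⟩ ⟨_, Rch_refl _, le_refl t⟩
    ⟨_, Rch_refl _, le_refl (0 : ℤ)⟩ ⟨_, Rch_refl _, le_refl (0 : ℤ)⟩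
    ⟨_, Rch_refl _, le_refl (0 : ℤ)⟩ ⟨_, Rch_refl _, le_refl (0 : ℤ)⟩⟩

/-- Step (3). -/
lemma step3 {R S : ℤ} (hR0 : 1 ≤ R) (hR : R < S) {θ : Lk ℤ → ZMod q} (hP : HP R S θ) :
    ∑ t ∈ Finset.Icc (-R) (-1), fl θ ![t, 0, 0, 0] 0 1 =
      ∑ t ∈ Finset.Icc (-S) (-1), fW (W R S θ) θ ![t, 0, 0, 0] 0 1 := by
  classical
  have hsub : Finset.Icc (-R) (-1) ⊆ Finset.Icc (-S) (-1) := by
    intro t ht
    rw [Finset.mem_Icc] at ht ⊢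
    omega
  rw [← Finset.sum_subset hsub (f := fun t => fW (W R S θ) θ ![t, 0, 0, 0] 0 1)]
  · refine Finset.sum_congr rfl fun t ht => ?_
    rw [Finset.mem_Icc] at ht
    unfold fW
    split_ifs with h
    · rfl
    · by_contra hf
      exact h (HP_line hR hP ht.1 ht.2 hf hR0)
  · intro t ht ht'
    rw [Finset.mem_Icc] at ht ht'
    unfold fW
    rw [if_neg]
    intro hw
    have h1 : -R < t := (W_Inn hw).1
    omega

/-- Step (4). -/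
lemma step4 (hN : S_TELN) {R S τ : ℤ} (hτ : τ = 0 ∨ τ = 1) (hR : R < S)
    {θ : Lk ℤ → ZMod q} (hP : HP R S θ) :
    (∑ t ∈ Finset.Icc (-S) (-1), ∑ s ∈ Finset.Icc (-S) (-1),
      @ite _ (good R S τ θ ![t, τ, s, 0]) (Classical.propDecidable _)
        (fl θ ![t, τ, s, 0] 0 2) 0) =
    ∑ t ∈ Finset.Icc (-S) (-1), ∑ s ∈ Finset.Icc (-S) (-1),
      fW (W R S θ) θ ![t, τ, s, 0] 0 2 := by
  classical
  have h0 := hN q S τ θ (A R S τ θ) (A1 hR) (A2 hτ hR)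
  rw [← sub_eq_zero, ← Finset.sum_sub_distrib]
  refine Eq.trans ?_ h0
  refine Finset.sum_congr rfl fun t ht => ?_
  rw [← Finset.sum_sub_distrib]
  refine Finset.sum_congr rfl fun s hs => ?_
  rw [Finset.mem_Icc] at ht hs
  unfold fW
  by_cases hf : fl θ ![t, τ, s, 0] 0 2 = 0
  · simp [hf]
  by_cases hg : good R S τ θ ![t, τ, s, 0]
  · by_cases hw : (![t, τ, s, 0] : Fin 4 → ℤ) ∈ W R S θ
    · have hA : (![t, τ, s, 0] : Fin 4 → ℤ) ∉ A R S τ θ := fun h => h.2.1 hw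
      simp [hg, hw, hA]
    · have hA : (![t, τ, s, 0] : Fin 4 → ℤ) ∈ A R S τ θ := by
        refine ⟨hg, hw, ?_⟩
        intro w hr
        by_contra hc
        push Not at hc
        have hB := B3_sub hτ θ hg.1
        have hI := hg.2 _ (Rch_refl _)
        have i1 : -R < t := hI.1
        have i2 : t < -1 := hI.2.1
        refine hw ⟨hB, hP _ hB t (by omega) (by omega) ⟨_, Rch_refl _, le_refl t⟩
          ⟨_, Rch_refl _, le_refl t⟩ ⟨_, Rch_refl _, ?_⟩ ⟨w, hr, hc⟩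
          ⟨_, Rch_refl _, le_refl (0 : ℤ)⟩ ⟨_, Rch_refl _, le_refl (0 : ℤ)⟩⟩
        show s ≤ 0
        omega
      simp [hg, hw, hA]
  · have hA : (![t, τ, s, 0] : Fin 4 → ℤ) ∉ A R S τ θ := fun h => hg h.1
    have hw : (![t, τ, s, 0] : Fin 4 → ℤ) ∉ W R S θ := by
      intro hw
      apply hg
      have hB : (![t, τ, s, 0] : Fin 4 → ℤ) ∈ B3 S τ θ :=
        ⟨hw.1.1, rfl, 0, 2, by decide, by decide, by decide, hf⟩
      exact ⟨hB, fun w hr => hw.2 w (Rch_mono (B3_sub hτ θ) hr)⟩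
    simp [hg, hw, hA]

lemma ev0 (t : ℤ) : (![t, 0, 0, 0] : Fin 4 → ℤ) + ev ℤ 0 = ![t + 1, 0, 0, 0] := by
  funext i
  fin_cases i <;> simp [ev]

lemma ev1 (t : ℤ) : (![t, 0, 0, 0] : Fin 4 → ℤ) + ev ℤ 1 = ![t, 1, 0, 0] := by
  funext i
  fin_cases i <;> simp [ev]

lemma tel (f : ℤ → ZMod q) (n : ℕ) :
    ∑ t ∈ Finset.Icc (-(n : ℤ)) (-1), (f (t + 1) - f t) = f 0 - f (-(n : ℤ)) := by
  induction n with
  | zero => simp
  | succ n ih =>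
    have h : Finset.Icc (-((n + 1 : ℕ) : ℤ)) (-1) =
        insert (-((n + 1 : ℕ) : ℤ)) (Finset.Icc (-(n : ℤ)) (-1)) := by
      ext t
      simp only [Finset.mem_Icc, Finset.mem_insert]
      push_cast
      omega
    rw [h, Finset.sum_insert (by simp), ih]
    have h2 : -((n + 1 : ℕ) : ℤ) + 1 = -(n : ℤ) := by push_cast; ring
    rw [h2]
    ring

/-- Step (1). -/
lemma step1 {R : ℤ} (hR0 : 1 ≤ R) (θ : Lk ℤ → ZMod q) :
    ∑ t ∈ Finset.Icc (-R) (-1), fl θ ![t, 0, 0, 0] 0 1 =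
      ∑ t ∈ Finset.Icc (-R) (-1), θ (![t, 0, 0, 0], 0) -
      ∑ t ∈ Finset.Icc (-R) (-1), θ (![t, 1, 0, 0], 0) + θ (0, 1) - θ (![-R, 0, 0, 0], 1) := by
  obtain ⟨n, rfl⟩ := Int.eq_ofNat_of_zero_le (show 0 ≤ R by omega)
  have h := tel (fun t => θ (![t, 0, 0, 0], 1)) n
  have z0 : (![0, 0, 0, 0] : Fin 4 → ℤ) = 0 := by
    funext i
    fin_cases i <;> simp
  simp only [z0] at h
  have e : ∀ t : ℤ, fl θ ![t, 0, 0, 0] 0 1 = (θ (![t, 0, 0, 0], 0) - θ (![t, 1, 0, 0], 0)) +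
      (θ (![t + 1, 0, 0, 0], 1) - θ (![t, 0, 0, 0], 1)) := by
    intro t
    unfold fl
    rw [ev0, ev1]
    ring
  simp only [e]
  rw [Finset.sum_add_distrib, h, Finset.sum_sub_distrib]
  ring

theorem main (hW : S_TELW) (hN : S_TELN) : S_TEL := by
  classical
  intro q R S hR0 hR θ hP
  have h2 := hW q S θ (W R S θ) (W1 hR) (W2 hR)
  have h3 := step3 hR0 hR hP
  have h4 := step4 hN (Or.inl rfl) hR hP
  have h5 := step4 hN (Or.inr rfl) hR hP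
  have h1 := step1 hR0 θ
  simp only [Finset.sum_sub_distrib] at h2
  unfold FF
  rw [h4, h5]
  rw [← h3, h1] at h2
  linear_combination h2

end Pool.Agent.N273.ZSTEL
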